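import Pool.Agent.KT3.StmtsM

/-!
# KT3 squad, row MIX (helper69)
-/

set_option autoImplicit false

open Matrix Filter Topology

namespace Pool.Agent.KT3.H69

open Pool.Agent.PFS Pool.Agent.PFJ Pool.Agent.NBT Pool.Agent.KT3

theorem tends_aux {n : ℕ} (x : ℕ → V n) (w : V n) (h : ∀ m : ℕ, ‖x m - w‖ < 1 / ((m : ℝ) + 1)) :
    Tendsto x atTop (𝓝 w) := by
  rw [tendsto_iff_norm_sub_tendsto_zero]
  exact squeeze_zero (fun m => norm_nonneg _) (fun m => (h m).le)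
    tendsto_one_div_add_atTop_nhds_zero_nat

/-- **MIX** -/
theorem mix (hLMD : LmdStmt) (hSEP : SepStmt) (hPRC : PrcStmt) : MixStmt := by
  intro n C Γ d q H hq hno w hw
  by_contra hcon
  have h1 : ∀ m : ℕ, ∃ (x z : Fin 3 → V n) (N N' : Submodule ℝ (V n)), AN C Γ d q x N ∧
      AN C Γ d q z N' ∧ (∀ i, ‖x i - w i‖ < 1 / ((m : ℝ) + 1) ∧ ‖z i - w i‖ < 1 / ((m : ℝ) + 1)) ∧
      ¬ ∃ N'' : Submodule ℝ (V n), AN C Γ d q (up x (z 0)) N'' := by
    intro m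
    by_contra hm
    refine hcon ⟨1 / ((m : ℝ) + 1), by positivity, ?_⟩
    intro x z N N' hx hz hxz
    by_contra h
    exact hm ⟨x, z, N, N', hx, hz, hxz, h⟩
  choose x z N N' hx hz hxz hn using h1
  obtain ⟨W, N'', y, b, b', hPR⟩ := hSEP n C Γ d q H x z N N' w hx hz
    (fun i => tends_aux _ _ fun m => (hxz m i).1) (fun i => tends_aux _ _ fun m => (hxz m i).2)
    hw hn
  exact hno (hLMD n C Γ d H W hPR.an.wl (q + 1) (by omega)
    (hPRC n C Γ d q H W N'' y b b' hPR))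

end Pool.Agent.KT3.H69
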